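import Mathlib

set_option autoImplicit false

/-!
# Avoiding one residue class for each prime of a large set
-/

namespace Pool.Agent.H82Dens

open Finset

private theorem count_le (Q : Finset ℕ) (hQ : ∀ q ∈ Q, q.Prime) (r : ℕ → ℕ) (N : ℕ) :
    ((range N).filter (fun n => ∀ q ∈ Q, ¬ n ≡ r q [MOD q])).card ≤
      (N / (∏ q ∈ Q, q) + 1) * ∏ q ∈ Q, (q - 1) := by
  classical
  set M := ∏ q ∈ Q, q with hM
  have hcard : ((range (N / M + 1)) ×ˢ (Q.pi fun q => (range q).erase (r q % q))).card =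
      (N / M + 1) * ∏ q ∈ Q, (q - 1) := by
    rw [card_product, card_range, card_pi]
    congr 1
    refine prod_congr rfl fun q hq => ?_
    rw [card_erase_of_mem (mem_range.2 (Nat.mod_lt _ (hQ q hq).pos)), card_range]
  rw [← hcard]
  refine card_le_card_of_injOn (fun n => (n / M, fun q _ => n % q)) ?_ ?_
  · intro n hn
    obtain ⟨hn1, hn2⟩ := mem_filter.1 (mem_coe.1 hn)
    refine mem_coe.2 (mem_product.2 ⟨mem_range.2 ?_, mem_pi.2 fun q hq => ?_⟩)
    · exact Nat.lt_succ_of_le (Nat.div_le_div_right (mem_range.1 hn1).le)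
    · refine mem_erase.2 ⟨fun h => hn2 q hq h, mem_range.2 (Nat.mod_lt _ (hQ q hq).pos)⟩
  · intro n _ n' _ h
    obtain ⟨h1, h2⟩ := Prod.mk.inj h
    have h3 : ∀ q ∈ Q, n % q = n' % q := fun q hq => congrFun (congrFun h2 q) hq
    have h4 : (M : ℤ) ∣ (n' : ℤ) - n := by
      rw [hM, Nat.cast_prod]
      refine Finset.prod_dvd_of_coprime ?_ ?_
      · intro p hp q hq hpq
        exact Nat.isCoprime_iff_coprime.2 ((Nat.coprime_primes (hQ p hp) (hQ q hq)).2 hpq)
      · intro q hq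
        exact (Nat.modEq_iff_dvd).1 (h3 q hq)
    have h5 : n % M = n' % M := (Nat.modEq_iff_dvd).2 h4
    rw [← Nat.div_add_mod n M, ← Nat.div_add_mod n' M, h1, h5]

theorem dens (P : Set ℕ) (hP : ∀ q ∈ P, q.Prime)
    (hs : ¬ Summable (fun q : ℕ => Set.indicator P (fun q => (1 : ℝ) / q) q)) (r : ℕ → ℕ) (b : ℕ)
    (ε : ℝ) (hε : 0 < ε) :
    ∃ Q : Finset ℕ, (∀ q ∈ Q, q ∈ P ∧ b < q) ∧ ∃ N₀ : ℕ, ∀ N ≥ N₀,
      (((Finset.range N).filter (fun n => ∀ q ∈ Q, ¬ n ≡ r q [MOD q])).card : ℝ) ≤ ε * N := by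
  classical
  set f : ℕ → ℝ := fun q => Set.indicator P (fun q => (1 : ℝ) / q) q with hf
  have hf0 : ∀ q, 0 ≤ f q := fun q => Set.indicator_nonneg (fun q _ => by positivity) q
  -- choose a large partial sum
  obtain ⟨B, hB⟩ : ∃ B : ℕ, Real.log (2 / ε) + ∑ q ∈ range (b + 1), f q ≤ ∑ q ∈ range B, f q := by
    by_contra hcon
    push Not at hcon
    exact hs (summable_of_sum_range_le hf0 fun n => (hcon n).le)
  set Q : Finset ℕ := (range B).filter (fun q => q ∈ P ∧ b < q) with hQ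
  have hQP : ∀ q ∈ Q, q ∈ P ∧ b < q := fun q hq => (mem_filter.1 hq).2
  have hQp : ∀ q ∈ Q, q.Prime := fun q hq => hP q (hQP q hq).1
  refine ⟨Q, hQP, ?_⟩
  have hsum : Real.log (2 / ε) ≤ ∑ q ∈ Q, (1 : ℝ) / q := by
    have h1 : ∑ q ∈ range B, f q ≤ ∑ q ∈ Q, (1 : ℝ) / q + ∑ q ∈ range (b + 1), f q := by
      have h2 : ∑ q ∈ Q, (1 : ℝ) / q = ∑ q ∈ Q, f q := by
        refine sum_congr rfl fun q hq => ?_
        rw [hf]
        simp only [Set.indicator_of_mem (hQP q hq).1]
      have h3 : ∑ q ∈ range B, f q ≤ ∑ q ∈ Q ∪ range (b + 1), f q := by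
        have h4 : ∑ q ∈ range B, f q = ∑ q ∈ (range B).filter (fun q => q ∈ P), f q := by
          rw [sum_filter]
          refine sum_congr rfl fun q _ => ?_
          by_cases h : q ∈ P
          · rw [if_pos h]
          · rw [if_neg h]
            exact Set.indicator_of_notMem h _
        rw [h4]
        refine sum_le_sum_of_subset_of_nonneg ?_ fun q _ _ => hf0 q
        intro q hq
        obtain ⟨h5, h6⟩ := mem_filter.1 hq
        by_cases h7 : b < q
        · exact mem_union_left _ (mem_filter.2 ⟨h5, h6, h7⟩)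
        · exact mem_union_right _ (mem_range.2 (by omega))
      have h8 : ∑ q ∈ Q ∪ range (b + 1), f q ≤ ∑ q ∈ Q, f q + ∑ q ∈ range (b + 1), f q := by
        rw [← sum_union_inter]
        exact le_add_of_nonneg_right (sum_nonneg fun q _ => hf0 q)
      rw [h2]
      exact h3.trans h8
    linarith
  set M := ∏ q ∈ Q, q with hM
  set C := ∏ q ∈ Q, (q - 1) with hC
  have hMpos : 0 < M := prod_pos fun q hq => (hQp q hq).pos
  have hCM : (C : ℝ) / M ≤ ε / 2 := by
    have h1 : (C : ℝ) / M = ∏ q ∈ Q, (1 - (1 : ℝ) / q) := by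
      rw [hC, hM, Nat.cast_prod, Nat.cast_prod, ← prod_div_distrib]
      refine prod_congr rfl fun q hq => ?_
      have hq0 : (q : ℝ) ≠ 0 := by exact_mod_cast (hQp q hq).ne_zero
      rw [Nat.cast_sub (hQp q hq).one_lt.le, Nat.cast_one]
      field_simp
    rw [h1]
    calc ∏ q ∈ Q, (1 - (1 : ℝ) / q) ≤ ∏ q ∈ Q, Real.exp (-((1 : ℝ) / q)) := by
          refine prod_le_prod (fun q hq => ?_) fun q hq => ?_
          · have h2 : (1 : ℝ) ≤ q := by exact_mod_cast (hQp q hq).one_lt.le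
            have : (1 : ℝ) / q ≤ 1 := by
              rw [div_le_one (by linarith)]
              exact h2
            linarith
          · have := Real.add_one_le_exp (-((1 : ℝ) / q))
            linarith
      _ = Real.exp (-∑ q ∈ Q, (1 : ℝ) / q) := by
          rw [← Real.exp_sum, sum_neg_distrib]
      _ ≤ Real.exp (-Real.log (2 / ε)) := Real.exp_le_exp.2 (by linarith)
      _ = ε / 2 := by
          rw [Real.exp_neg, Real.exp_log (by positivity), inv_div]
  refine ⟨⌈2 * (C : ℝ) / ε⌉₊, fun N hN => ?_⟩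
  have h1 := count_le Q hQp r N
  have hN' : 2 * (C : ℝ) / ε ≤ N := (Nat.le_ceil _).trans (by exact_mod_cast hN)
  have hCN : (C : ℝ) ≤ ε / 2 * N := by
    rw [div_le_iff₀ hε] at hN'
    linarith
  have h2 : ((N / M + 1 : ℕ) : ℝ) ≤ (N : ℝ) / M + 1 := by
    push_cast
    have := Nat.cast_div_le (α := ℝ) (m := N) (n := M)
    linarith
  calc (((Finset.range N).filter (fun n => ∀ q ∈ Q, ¬ n ≡ r q [MOD q])).card : ℝ)
      ≤ ((N / M + 1 : ℕ) : ℝ) * C := by exact_mod_cast h1
    _ ≤ ((N : ℝ) / M + 1) * C := mul_le_mul_of_nonneg_right h2 (Nat.cast_nonneg _)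
    _ = (C : ℝ) / M * N + C := by ring
    _ ≤ ε / 2 * N + ε / 2 * N := by
        have := mul_le_mul_of_nonneg_right hCM (Nat.cast_nonneg (α := ℝ) N)
        linarith
    _ = ε * N := by ring

end Pool.Agent.H82Dens
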